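import Mathlib

set_option autoImplicit false

namespace Pool.Agent.SD

open CharacterModule

variable {A : Type} [AddCommGroup A]

/-- annihilator of a subgroup in the group of characters with values in `ℚ/ℤ`. -/
def ann (X : AddSubgroup A) : AddSubgroup (CharacterModule A) where
  carrier := {c | ∀ x ∈ X, c x = 0}
  zero_mem' := by intro x _; rfl
  add_mem' := by
    intro c d hc hd x hx
    have : (c + d) x = c x + d x := rfl
    rw [this, hc x hx, hd x hx, add_zero]
  neg_mem' := by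
    intro c hc x hx
    have : (-c) x = -(c x) := rfl
    rw [this, hc x hx, neg_zero]

theorem mem_ann {X : AddSubgroup A} {c : CharacterModule A} : c ∈ ann X ↔ ∀ x ∈ X, c x = 0 :=
  Iff.rfl

theorem ann_anti {X Y : AddSubgroup A} (h : X ≤ Y) : ann Y ≤ ann X :=
  fun _ hc x hx => hc x (h hx)

theorem ann_sup (X Y : AddSubgroup A) : ann X ⊓ ann Y ≤ ann (X ⊔ Y) := by
  intro c hc x hx
  rw [AddSubgroup.mem_inf] at hc
  rw [AddSubgroup.mem_sup] at hx
  obtain ⟨y, hy, z, hz, rfl⟩ := hx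
  rw [map_add, hc.1 y hy, hc.2 z hz, add_zero]

theorem ann_sep (X : AddSubgroup A) (x : A) (hx : x ∉ X) : ∃ c ∈ ann X, c x ≠ 0 := by
  have h : (QuotientAddGroup.mk' X x) ≠ 0 := by
    intro h
    apply hx
    rwa [QuotientAddGroup.mk'_apply, QuotientAddGroup.eq_zero_iff] at h
  obtain ⟨c, hc⟩ := CharacterModule.exists_character_apply_ne_zero_of_ne_zero h
  refine ⟨c.comp (QuotientAddGroup.mk' X), ?_, hc⟩
  intro y hy
  have : (QuotientAddGroup.mk' X y) = 0 := by
    rwa [QuotientAddGroup.mk'_apply, QuotientAddGroup.eq_zero_iff]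
  show c (QuotientAddGroup.mk' X y) = 0
  rw [this, map_zero]

theorem ann_inf (X Y : AddSubgroup A) : ann (X ⊓ Y) ≤ ann X ⊔ ann Y := by
  intro c hc
  let X' := AddSubgroup.toIntSubmodule X
  let Y' := AddSubgroup.toIntSubmodule Y
  let φ : A →ₗ[ℤ] (A ⧸ X') × (A ⧸ Y') := (Submodule.mkQ X').prod (Submodule.mkQ Y')
  have hk : LinearMap.ker φ = X' ⊓ Y' := by
    ext a
    simp [φ, LinearMap.mem_ker]
  let ψ : (A ⧸ (X' ⊓ Y')) →ₗ[ℤ] (A ⧸ X') × (A ⧸ Y') :=
    Submodule.liftQ _ φ (le_of_eq hk.symm)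
  have hψ : Function.Injective ψ := by
    rw [← LinearMap.ker_eq_bot]
    exact Submodule.ker_liftQ_eq_bot _ _ _ (le_of_eq hk)
  obtain ⟨d, hd⟩ := CharacterModule.dual_surjective_of_injective ψ hψ
    (QuotientAddGroup.lift (X' ⊓ Y').toAddSubgroup c (by
      intro a ha
      exact hc a ha))
  rw [AddSubgroup.mem_sup]
  refine ⟨(d.comp (AddMonoidHom.inl _ _)).comp (Submodule.mkQ X').toAddMonoidHom, ?_,
    (d.comp (AddMonoidHom.inr _ _)).comp (Submodule.mkQ Y').toAddMonoidHom, ?_, ?_⟩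
  · intro x hx
    have h0 : (Submodule.mkQ X') x = 0 := by
      rw [Submodule.mkQ_apply, Submodule.Quotient.mk_eq_zero]; exact hx
    show d (AddMonoidHom.inl _ _ ((Submodule.mkQ X') x)) = 0
    rw [h0, map_zero, map_zero]
  · intro x hx
    have h0 : (Submodule.mkQ Y') x = 0 := by
      rw [Submodule.mkQ_apply, Submodule.Quotient.mk_eq_zero]; exact hx
    show d (AddMonoidHom.inr _ _ ((Submodule.mkQ Y') x)) = 0
    rw [h0, map_zero, map_zero]
  · ext x
    have h1 : d (ψ (Submodule.Quotient.mk x)) = c x :=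
      DFunLike.congr_fun hd (Submodule.Quotient.mk x)
    rw [← h1]
    show d ((Submodule.mkQ X') x, 0) + d (0, (Submodule.mkQ Y') x) = d (ψ (Submodule.Quotient.mk x))
    rw [← map_add]
    congr 1
    show _ = φ x
    simp [φ]

end Pool.Agent.SD
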