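import Mathlib

set_option autoImplicit false

namespace Pool.Agent.SD

/-- The frame lemma: coherent choice of elements over the points of a projective space over `F₂`. -/
theorem frame {T A : Type} [AddCommGroup T] [AddCommGroup A] (h2 : ∀ x : T, x + x = 0)
    (F : T → AddSubgroup A)
    (f1 : ∀ s t, F (s + t) ≤ F s ⊔ F t)
    (f2 : ∀ s t, s ≠ t → F s ⊓ F t ≤ F 0)
    (f3 : ∀ x y z w, x + y = z + w → z ≠ 0 → z ≠ x → z ≠ y → z ≠ x + y → x ≠ 0 → y ≠ 0 → x ≠ y →
      w ≠ 0 → (F x ⊔ F y) ⊓ (F z ⊔ F w) ≤ F (x + y))
    (t0 : T) (ht0 : t0 ≠ 0)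
    (hdim : ∀ s : T, ∃ s' : T, s' ≠ 0 ∧ s' ≠ t0 ∧ s' ≠ s ∧ s' ≠ s + t0)
    (a : A) (ha : a ∈ F t0) :
    ∃ Y : T → A, (a - Y t0 ∈ F 0) ∧ (∀ t, Y t ∈ F t) ∧
      ∀ s t, Y s + Y t - Y (s + t) ∈ F 0 := by
  classical
  have hss : ∀ s t : T, s + (s + t) = t := fun s t => by rw [← add_assoc, h2, zero_add]
  have hss' : ∀ s t : T, s + t + t = s := fun s t => by rw [add_assoc, h2, add_zero]
  have hne : ∀ s : T, s ≠ s + t0 := by
    intro s h
    apply ht0
    have := congrArg (fun x => s + x) h
    simpa [hss, h2] using this.symm
  have hcancel : ∀ s t u : T, s + t = s + u → t = u := fun s t u h => by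
    have := congrArg (fun x => s + x) h
    simpa [hss] using this
  have hex : ∀ s, ∃ y, y ∈ F s ∧ a - y ∈ F (s + t0) := by
    intro s
    have h : a ∈ F s ⊔ F (s + t0) := by
      have := f1 s (s + t0)
      rw [hss] at this
      exact this ha
    rw [AddSubgroup.mem_sup] at h
    obtain ⟨y, hy, z, hz, hyz⟩ := h
    refine ⟨y, hy, ?_⟩
    have : a - y = z := by rw [← hyz]; abel
    rwa [this]
  choose Y hY hY' using hex
  -- base element
  have huniq : ∀ s y, y ∈ F s → a - y ∈ F (s + t0) → y - Y s ∈ F 0 := by
    intro s y hy hy'
    apply f2 s (s + t0) (hne s)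
    refine AddSubgroup.mem_inf.2 ⟨sub_mem hy (hY s), ?_⟩
    have := sub_mem (hY' s) hy'
    have e : a - Y s - (a - y) = y - Y s := by abel
    rwa [e] at this
  have hY0 : Y 0 ∈ F 0 := hY 0
  have hB : ∀ s, F 0 ≤ F s := by
    intro s
    have := f1 s s
    rw [h2, sup_idem] at this
    exact this
  have hat : a - Y t0 ∈ F 0 := by
    have := hY' t0
    rwa [h2] at this
  have hst0 : ∀ s, a - Y s - Y (s + t0) ∈ F 0 := by
    intro s
    apply huniq
    · exact hY' s
    · rw [hss']
      have : a - (a - Y s) = Y s := by abel
      rw [this]; exact hY s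
  have h3 : ∀ s s', s ≠ 0 → s ≠ t0 → s' ≠ 0 → s' ≠ t0 → s' ≠ s → s' ≠ s + t0 →
      Y s - Y s' - Y (s + s') ∈ F 0 := by
    intro s s' hs0 hst hs'0 hs't hs's hs'st
    apply huniq
    · have hx : s + t0 ≠ 0 := by
        intro h; apply hst
        have := congrArg (fun x => x + t0) h
        simpa [hss'] using this
      have hle := f3 s s' (s + t0) (s' + t0)
        (by rw [add_add_add_comm, h2, add_zero]) hx (fun h => hne s h.symm)
        (fun h => hs'st h.symm) (fun h => hs't (hcancel _ _ _ h).symm) hs0 hs'0
        (fun h => hs's h.symm) (by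
          intro h; apply hs't
          have := congrArg (fun x => x + t0) h
          simpa [hss'] using this)
      apply hle
      refine AddSubgroup.mem_inf.2 ⟨?_, ?_⟩
      · exact sub_mem (AddSubgroup.mem_sup_left (hY s)) (AddSubgroup.mem_sup_right (hY s'))
      · have e : Y s - Y s' = (a - Y s') - (a - Y s) := by abel
        show Y s - Y s' ∈ _
        rw [e]
        exact sub_mem (AddSubgroup.mem_sup_right (hY' s')) (AddSubgroup.mem_sup_left (hY' s))
    · have e0 : s + s' + t0 = s + t0 + s' := by abel
      have hx : s + t0 ≠ 0 := by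
        intro h; apply hst
        have := congrArg (fun x => x + t0) h
        simpa [hss'] using this
      have hss'0 : s + s' ≠ 0 := by
        intro h; apply hs's
        have := congrArg (fun x => s + x) h
        simpa [hss] using this
      have hle := f3 (s + t0) s' t0 (s + s') (by abel) ht0
        (by
          intro h; apply hs0
          have := congrArg (fun x => x + t0) h
          simpa [hss', h2] using this.symm)
        (fun h => hs't h.symm)
        (by
          intro h; apply hss'0
          have := congrArg (fun x => x + t0) h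
          rw [h2] at this
          rw [this]
          have : s + t0 + s' + t0 = s + s' + (t0 + t0) := by abel
          rw [this, h2, add_zero])
        hx hs'0 (fun h => hs'st h.symm) hss'0
      rw [e0]
      have hd : Y s - Y s' ∈ F (s + s') := by
        have hle := f3 s s' (s + t0) (s' + t0)
          (by rw [add_add_add_comm, h2, add_zero]) hx (fun h => hne s h.symm)
          (fun h => hs'st h.symm) (fun h => hs't (hcancel _ _ _ h).symm) hs0 hs'0
          (fun h => hs's h.symm) (by
            intro h; apply hs't
            have := congrArg (fun x => x + t0) h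
            simpa [hss'] using this)
        apply hle
        refine AddSubgroup.mem_inf.2 ⟨?_, ?_⟩
        · exact sub_mem (AddSubgroup.mem_sup_left (hY s)) (AddSubgroup.mem_sup_right (hY s'))
        · have e : Y s - Y s' = (a - Y s') - (a - Y s) := by abel
          show Y s - Y s' ∈ _
          rw [e]
          exact sub_mem (AddSubgroup.mem_sup_right (hY' s')) (AddSubgroup.mem_sup_left (hY' s))
      apply hle
      refine AddSubgroup.mem_inf.2 ⟨?_, ?_⟩
      · have e : a - (Y s - Y s') = (a - Y s) + Y s' := by abel
        show a - (Y s - Y s') ∈ _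
        rw [e]
        exact add_mem (AddSubgroup.mem_sup_left (hY' s)) (AddSubgroup.mem_sup_right (hY s'))
      · exact sub_mem (AddSubgroup.mem_sup_left ha) (AddSubgroup.mem_sup_right hd)
  have h4a : ∀ u, u ≠ 0 → u ≠ t0 → Y u + Y u ∈ F 0 := by
    intro u hu0 hut
    obtain ⟨s', hs'0, hs't, hs'u, hs'ut⟩ := hdim u
    have e1 : s' + (u + s') = u := by
      have : s' + (u + s') = u + (s' + s') := by abel
      rw [this, h2, add_zero]
    have e2 : u + s' + s' = u := hss' u s'
    have A1 := h3 (u + s') s' (by
        intro h; apply hs'u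
        have := congrArg (fun x => u + x) h
        simpa [hss] using this) (by
        intro h; apply hs'ut
        have := congrArg (fun x => u + x) h
        simpa [hss] using this) hs'0 hs't (by
        intro h; apply hu0
        have := congrArg (fun x => x + s') h
        simpa [hss', h2] using this.symm) (by
        intro h; apply hut
        have := congrArg (fun x => x + s') h
        have e : u + s' + t0 + s' = u + t0 + (s' + s') := by abel
        simp only [h2, e, add_zero] at this
        have := congrArg (fun x => x + t0) this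
        simpa [hss'] using this.symm)
    have A2 := h3 s' (u + s') hs'0 hs't (by
        intro h; apply hs'u
        have := congrArg (fun x => u + x) h
        simpa [hss] using this) (by
        intro h; apply hs'ut
        have := congrArg (fun x => u + x) h
        simpa [hss] using this) (by
        intro h; apply hu0
        have := congrArg (fun x => x + s') h
        simpa [hss', h2] using this) (by
        intro h; apply hut
        have e : s' + t0 = t0 + s' := add_comm _ _
        rw [e] at h
        have := congrArg (fun x => x + s') h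
        simpa [hss'] using this)
    rw [e2] at A1
    rw [e1] at A2
    have := add_mem A1 A2
    have e : Y (u + s') - Y s' - Y u + (Y s' - Y (u + s') - Y u) = -(Y u + Y u) := by abel
    rw [e] at this
    exact neg_mem_iff.1 this
  have h4 : ∀ u, Y u + Y u ∈ F 0 := by
    intro u
    by_cases hu0 : u = 0
    · subst hu0; exact add_mem hY0 hY0
    by_cases hut : u = t0
    · subst hut
      obtain ⟨s, hs0, hst, -, -⟩ := hdim 0
      have A1 := h4a s hs0 hst
      have A2 := h4a (s + u) (by
        intro h; apply hst
        have := congrArg (fun x => x + u) h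
        simpa [hss'] using this) (by
        intro h; apply hs0
        have := congrArg (fun x => x + u) h
        simpa [hss', h2] using this)
      have A3 := hst0 s
      have := sub_mem (sub_mem (add_mem (add_mem A1 A2) (add_mem A3 A3)) hat) hat
      have e : Y s + Y s + (Y (s + u) + Y (s + u)) +
          (a - Y s - Y (s + u) + (a - Y s - Y (s + u))) - (a - Y u) - (a - Y u) = Y u + Y u := by
        abel
      rwa [e] at this
    · exact h4a u hu0 hut
  refine ⟨Y, hat, hY, ?_⟩
  intro s s'
  by_cases hs0 : s = 0
  · subst hs0
    rw [zero_add]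
    have : Y 0 + Y s' - Y s' = Y 0 := by abel
    rw [this]; exact hY0
  by_cases hs'0 : s' = 0
  · subst hs'0
    rw [add_zero]
    have : Y s + Y 0 - Y s = Y 0 := by abel
    rw [this]; exact hY0
  by_cases hss1 : s' = s
  · subst hss1
    rw [h2]
    exact sub_mem (h4 _) hY0
  by_cases hst : s = t0
  · subst hst
    have A1 := hst0 s'
    rw [add_comm s' s] at A1
    have := sub_mem (add_mem A1 (h4 s')) hat
    have e : a - Y s' - Y (s + s') + (Y s' + Y s') - (a - Y s) = Y s + Y s' - Y (s + s') := by abel
    rwa [e] at this
  by_cases hs't : s' = t0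
  · subst hs't
    have A1 := hst0 s
    have := sub_mem (add_mem A1 (h4 s)) hat
    have e : a - Y s - Y (s + s') + (Y s + Y s) - (a - Y s') = Y s + Y s' - Y (s + s') := by abel
    rwa [e] at this
  by_cases hs'st : s' = s + t0
  · subst hs'st
    rw [hss]
    have A1 := hst0 s
    have := sub_mem hat A1
    have e : a - Y t0 - (a - Y s - Y (s + t0)) = Y s + Y (s + t0) - Y t0 := by abel
    rwa [e] at this
  have := add_mem (h3 s s' hs0 hst hs'0 hs't hss1 hs'st) (h4 s')
  have e : Y s - Y s' - Y (s + s') + (Y s' + Y s') = Y s + Y s' - Y (s + s') := by abel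
  rwa [e] at this

end Pool.Agent.SD
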