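import Pool.Agent.SD.Dat
import Pool.Agent.SD.Frame
import Pool.Agent.SD.Ann

set_option autoImplicit false
set_option maxRecDepth 100000

namespace Pool.Agent.SD

theorem abelian_part {L : Type} [Lattice L] {A : Type} [AddCommGroup A] (g : L → AddSubgroup A)
    (gsup : ∀ x y, g (x ⊔ y) = g x ⊓ g y) (ginf : ∀ x y, g (x ⊓ y) = g x ⊔ g y)
    (K : W 5 → L) (P : W 4 → L) (M : Fin 15 → L) (hK0 : K 0 = P 0)
    (R1 : ∀ s t, K s ⊓ K t ≤ K (s + t))
    (R2 : ∀ s t, s ≠ t → P 0 ≤ K s ⊔ K t)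
    (R3 : ∀ x y z w, x + y = z + w → z ≠ 0 → z ≠ x → z ≠ y → z ≠ x + y →
      K (x + y) ≤ (K x ⊓ K y) ⊔ (K z ⊓ K w))
    (V1 : ∀ s t, P (s + t) ≤ P s ⊔ P t)
    (V2 : ∀ s t, s ≠ t → P s ⊓ P t ≤ P 0)
    (V3 : ∀ x y z w, x + y = z + w → z ≠ 0 → z ≠ x → z ≠ y → z ≠ x + y →
      (P x ⊔ P y) ⊓ (P z ⊔ P w) ≤ P (x + y))
    (M1 : ∀ k, M k ⊓ P 0 ≤ K (fv k))
    (M2 : ∀ v, v ≠ 0 → v ≠ p 15 → P v ≤ P 0 ⊔ (M (t1 v) ⊓ M (t2 v) ⊓ M (t3 v)))
    (M3 : P 0 ≤ M 12 ⊔ (P (p 15) ⊓ M 8 ⊓ M 14)) :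
    g (K (fv 12)) ≤ g (P 0) := by
  classical
  have ganti : ∀ x y, x ≤ y → g y ≤ g x := by
    intro x y h
    have := gsup x y
    rw [sup_eq_right.2 h] at this
    rw [this]; exact inf_le_left
  intro a ha
  obtain ⟨Y, hYa, hY, hYadd⟩ := frame W.add_self (fun t => g (K t))
    (by
      intro s t
      show g (K (s + t)) ≤ g (K s) ⊔ g (K t)
      rw [← ginf]; exact ganti _ _ (R1 s t))
    (by
      intro s t hst
      show g (K s) ⊓ g (K t) ≤ g (K 0)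
      rw [← gsup, hK0]; exact ganti _ _ (R2 s t hst))
    (by
      intro x y z w h1 h2 h3 h4 h5 _ _ _ _
      show (g (K x) ⊔ g (K y)) ⊓ (g (K z) ⊔ g (K w)) ≤ g (K (x + y))
      rw [← ginf, ← ginf, ← gsup]; exact ganti _ _ (R3 x y z w h1 h2 h3 h4 h5))
    (fv 12) (by decide) hdim5 a ha
  simp only [hK0] at hYa hYadd
  have hYf : ∀ k, ∃ y, y ∈ g (M k) ∧ y - Y (fv k) ∈ g (P 0) := by
    intro k
    have h1 : Y (fv k) ∈ g (M k) ⊔ g (P 0) := by
      rw [← ginf]; exact ganti _ _ (M1 k) (hY (fv k))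
    rw [AddSubgroup.mem_sup] at h1
    obtain ⟨y, hy, z, hz, hyz⟩ := h1
    refine ⟨y, hy, ?_⟩
    rw [← hyz]
    have : y - (y + z) = -z := by abel
    rw [this]; exact neg_mem hz
  choose y hyM hyY using hYf
  have hY0 : Y 0 ∈ g (P 0) := by have := hY 0; simpa only [hK0] using this
  have hYs : ∀ s : Finset (Fin 15), (∑ k ∈ s, Y (fv k)) - Y (∑ k ∈ s, fv k) ∈ g (P 0) := by
    intro s
    induction s using Finset.induction_on with
    | empty =>
      rw [Finset.sum_empty, Finset.sum_empty, zero_sub]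
      exact neg_mem hY0
    | insert a s has ih =>
      rw [Finset.sum_insert has, Finset.sum_insert has]
      have := add_mem (hYadd (fv a) (∑ k ∈ s, fv k)) ih
      have e : Y (fv a) + Y (∑ k ∈ s, fv k) - Y (fv a + ∑ k ∈ s, fv k) +
          ((∑ k ∈ s, Y (fv k)) - Y (∑ k ∈ s, fv k)) =
          Y (fv a) + (∑ k ∈ s, Y (fv k)) - Y (fv a + ∑ k ∈ s, fv k) := by abel
      rwa [e] at this
  have hys : ∀ s : Finset (Fin 15), (∑ k ∈ s, fv k) = 0 → (∑ k ∈ s, y k) ∈ g (P 0) := by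
    intro s hs
    have h1 := hYs s
    rw [hs] at h1
    have h2 : (∑ k ∈ s, (y k - Y (fv k))) ∈ g (P 0) := sum_mem fun k _ => hyY k
    rw [Finset.sum_sub_distrib] at h2
    have := add_mem (add_mem h1 h2) hY0
    have e : (∑ k ∈ s, Y (fv k)) - Y 0 + ((∑ k ∈ s, y k) - ∑ k ∈ s, Y (fv k)) + Y 0 =
      ∑ k ∈ s, y k := by abel
    rwa [e] at this
  let b : W 4 → A := fun v => y (t1 v) + y (t2 v) + y (t3 v)
  have hbB : ∀ v, v ≠ 0 → b v ∈ g (P 0) := by
    intro v hv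
    have h1 := hYadd (fv (t1 v)) (fv (t2 v))
    have h2 := hYadd (fv (t1 v) + fv (t2 v)) (fv (t3 v))
    rw [fv_sum v hv] at h2
    have := add_mem (add_mem (add_mem (add_mem (add_mem (hyY (t1 v)) (hyY (t2 v))) (hyY (t3 v))) h1) h2) hY0
    have e : y (t1 v) - Y (fv (t1 v)) + (y (t2 v) - Y (fv (t2 v))) + (y (t3 v) - Y (fv (t3 v))) +
        (Y (fv (t1 v)) + Y (fv (t2 v)) - Y (fv (t1 v) + fv (t2 v))) +
        (Y (fv (t1 v) + fv (t2 v)) + Y (fv (t3 v)) - Y 0) + Y 0 = b v := by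
      show _ = y (t1 v) + y (t2 v) + y (t3 v)
      abel
    rwa [e] at this
  have hbP : ∀ v, v ≠ 0 → v ≠ p 15 → b v ∈ g (P v) := by
    intro v hv hv'
    apply ganti _ _ (M2 v hv hv')
    rw [gsup, ginf, ginf]
    refine AddSubgroup.mem_inf.2 ⟨hbB v hv, ?_⟩
    exact add_mem (AddSubgroup.mem_sup_left (add_mem (AddSubgroup.mem_sup_left (hyM _))
      (AddSubgroup.mem_sup_right (hyM _)))) (AddSubgroup.mem_sup_right (hyM _))

  have hs0 : y 0 + y 1 + y 2 + y 3 + y 4 + y 6 + y 7 + y 8 + y 9 + y 11 + y 12 + y 14 ∈ g (P 0) := by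
    have := hys {0, 1, 2, 3, 4, 6, 7, 8, 9, 11, 12, 14} (by decide +kernel)
    have e : ∑ k ∈ ({0, 1, 2, 3, 4, 6, 7, 8, 9, 11, 12, 14} : Finset (Fin 15)), y k = y 0 + y 1 + y 2 + y 3 + y 4 + y 6 + y 7 + y 8 + y 9 + y 11 + y 12 + y 14 := by
      simp only [Finset.sum_insert, Finset.sum_singleton, Finset.mem_insert, Finset.mem_singleton, Fin.reduceEq, or_self, not_false_eq_true, false_or]
      abel
    rwa [e] at this
  have E0 : b (p 1) + b (p 3) + b (p 5) + b (p 7) + b (p 9) + b (p 11) + b (p 13) + b (p 15) = (y 0 + y 1 + y 2 + y 3 + y 4 + y 6 + y 7 + y 8 + y 9 + y 11 + y 12 + y 14) + (y 0 + y 1 + y 2 + y 3 + y 4 + y 6 + y 7 + y 8 + y 9 + y 11 + y 12 + y 14) := by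
    show (y 0 + y 1 + y 2) + (y 6 + y 7 + y 8) + (y 3 + y 11 + y 12) + (y 0 + y 3 + y 6) + (y 4 + y 9 + y 14) + (y 1 + y 4 + y 7) + (y 2 + y 9 + y 11) + (y 8 + y 12 + y 14) = _
    abel
  have hs1 : y 0 + y 1 + y 3 + y 4 + y 5 + y 6 + y 7 + y 8 + y 10 + y 12 + y 13 + y 14 ∈ g (P 0) := by
    have := hys {0, 1, 3, 4, 5, 6, 7, 8, 10, 12, 13, 14} (by decide +kernel)
    have e : ∑ k ∈ ({0, 1, 3, 4, 5, 6, 7, 8, 10, 12, 13, 14} : Finset (Fin 15)), y k = y 0 + y 1 + y 3 + y 4 + y 5 + y 6 + y 7 + y 8 + y 10 + y 12 + y 13 + y 14 := by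
      simp only [Finset.sum_insert, Finset.sum_singleton, Finset.mem_insert, Finset.mem_singleton, Fin.reduceEq, or_self, not_false_eq_true, false_or]
      abel
    rwa [e] at this
  have E1 : b (p 2) + b (p 3) + b (p 6) + b (p 7) + b (p 10) + b (p 11) + b (p 14) + b (p 15) = (y 0 + y 1 + y 3 + y 4 + y 5 + y 6 + y 7 + y 8 + y 10 + y 12 + y 13 + y 14) + (y 0 + y 1 + y 3 + y 4 + y 5 + y 6 + y 7 + y 8 + y 10 + y 12 + y 13 + y 14) := by
    show (y 3 + y 4 + y 5) + (y 6 + y 7 + y 8) + (y 0 + y 13 + y 14) + (y 0 + y 3 + y 6) + (y 1 + y 10 + y 12) + (y 1 + y 4 + y 7) + (y 5 + y 10 + y 13) + (y 8 + y 12 + y 14) = _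
    abel
  have hs2 : y 0 + y 2 + y 3 + y 5 + y 6 + y 8 + y 9 + y 10 + y 11 + y 12 + y 13 + y 14 ∈ g (P 0) := by
    have := hys {0, 2, 3, 5, 6, 8, 9, 10, 11, 12, 13, 14} (by decide +kernel)
    have e : ∑ k ∈ ({0, 2, 3, 5, 6, 8, 9, 10, 11, 12, 13, 14} : Finset (Fin 15)), y k = y 0 + y 2 + y 3 + y 5 + y 6 + y 8 + y 9 + y 10 + y 11 + y 12 + y 13 + y 14 := by
      simp only [Finset.sum_insert, Finset.sum_singleton, Finset.mem_insert, Finset.mem_singleton, Fin.reduceEq, or_self, not_false_eq_true, false_or]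
      abel
    rwa [e] at this
  have E2 : b (p 4) + b (p 5) + b (p 6) + b (p 7) + b (p 12) + b (p 13) + b (p 14) + b (p 15) = (y 0 + y 2 + y 3 + y 5 + y 6 + y 8 + y 9 + y 10 + y 11 + y 12 + y 13 + y 14) + (y 0 + y 2 + y 3 + y 5 + y 6 + y 8 + y 9 + y 10 + y 11 + y 12 + y 13 + y 14) := by
    show (y 6 + y 9 + y 10) + (y 3 + y 11 + y 12) + (y 0 + y 13 + y 14) + (y 0 + y 3 + y 6) + (y 2 + y 5 + y 8) + (y 2 + y 9 + y 11) + (y 5 + y 10 + y 13) + (y 8 + y 12 + y 14) = _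
    abel
  have hs3 : y 1 + y 2 + y 4 + y 5 + y 7 + y 8 + y 9 + y 10 + y 11 + y 12 + y 13 + y 14 ∈ g (P 0) := by
    have := hys {1, 2, 4, 5, 7, 8, 9, 10, 11, 12, 13, 14} (by decide +kernel)
    have e : ∑ k ∈ ({1, 2, 4, 5, 7, 8, 9, 10, 11, 12, 13, 14} : Finset (Fin 15)), y k = y 1 + y 2 + y 4 + y 5 + y 7 + y 8 + y 9 + y 10 + y 11 + y 12 + y 13 + y 14 := by
      simp only [Finset.sum_insert, Finset.sum_singleton, Finset.mem_insert, Finset.mem_singleton, Fin.reduceEq, or_self, not_false_eq_true, false_or]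
      abel
    rwa [e] at this
  have E3 : b (p 8) + b (p 9) + b (p 10) + b (p 11) + b (p 12) + b (p 13) + b (p 14) + b (p 15) = (y 1 + y 2 + y 4 + y 5 + y 7 + y 8 + y 9 + y 10 + y 11 + y 12 + y 13 + y 14) + (y 1 + y 2 + y 4 + y 5 + y 7 + y 8 + y 9 + y 10 + y 11 + y 12 + y 13 + y 14) := by
    show (y 7 + y 11 + y 13) + (y 4 + y 9 + y 14) + (y 1 + y 10 + y 12) + (y 1 + y 4 + y 7) + (y 2 + y 5 + y 8) + (y 2 + y 9 + y 11) + (y 5 + y 10 + y 13) + (y 8 + y 12 + y 14) = _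
    abel

  have hr : b (p 15) ∈ g (P (p 15)) := by
    by_contra hcon
    obtain ⟨χ, hχ, hχ0⟩ := ann_sep _ _ hcon
    obtain ⟨X, hXχ, hX, hXadd⟩ := frame W.add_self (fun v => ann (g (P v)))
      (by
        intro s t
        show ann (g (P (s + t))) ≤ ann (g (P s)) ⊔ ann (g (P t))
        refine le_trans (ann_anti ?_) (ann_inf _ _)
        rw [← gsup]; exact ganti _ _ (V1 s t))
      (by
        intro s t hst
        show ann (g (P s)) ⊓ ann (g (P t)) ≤ ann (g (P 0))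
        refine le_trans (ann_sup _ _) (ann_anti ?_)
        rw [← ginf]; exact ganti _ _ (V2 s t hst))
      (by
        intro x y z w h1 h2 h3 h4 h5 _ _ _ _
        show (ann (g (P x)) ⊔ ann (g (P y))) ⊓ (ann (g (P z)) ⊔ ann (g (P w))) ≤
          ann (g (P (x + y)))
        have e1 : ann (g (P x)) ⊔ ann (g (P y)) ≤ ann (g (P x) ⊓ g (P y)) :=
          sup_le (ann_anti inf_le_left) (ann_anti inf_le_right)
        have e2 : ann (g (P z)) ⊔ ann (g (P w)) ≤ ann (g (P z) ⊓ g (P w)) :=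
          sup_le (ann_anti inf_le_left) (ann_anti inf_le_right)
        refine le_trans (inf_le_inf e1 e2) (le_trans (ann_sup _ _) (ann_anti ?_))
        rw [← gsup, ← gsup, ← ginf]; exact ganti _ _ (V3 x y z w h1 h2 h3 h4 h5))
      (p 15) (by decide) hdim4 χ hχ
    have xadd : ∀ s t c, c ∈ g (P 0) → X (s + t) c = X s c + X t c := by
      intro s t c hc
      have h1 := mem_ann.1 (hXadd s t) c hc
      have h2 : (X s + X t - X (s + t)) c = X s c + X t c - X (s + t) c := rfl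
      rw [h2] at h1
      exact (sub_eq_zero.1 h1).symm
    have hz : ∀ v, v ≠ 0 → v ≠ p 15 → X v (b v) = 0 := fun v h1 h2 =>
      mem_ann.1 (hX v) _ (hbP v h1 h2)
    have hX0 : ∀ c, c ∈ g (P 0) → X 0 c = 0 := fun c hc => mem_ann.1 (hX 0) c hc
    have hdbl : ∀ s c, c ∈ g (P 0) → X s (c + c) = 0 := by
      intro s c hc
      rw [map_add, ← xadd s s c hc, W.add_self]; exact hX0 c hc

    have z1 : X (p 1) (b (p 1)) = 0 := by
      exact hz (p 1) (by decide) (by decide)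
    have z2 : X (p 2) (b (p 2)) = 0 := by
      exact hz (p 2) (by decide) (by decide)
    have z3 : X (p 1) (b (p 3)) + X (p 2) (b (p 3)) = 0 := by
      rw [← xadd _ _ _ (hbB (p 3) (by decide))]
      exact hz (p 3) (by decide) (by decide)
    have z4 : X (p 4) (b (p 4)) = 0 := by
      exact hz (p 4) (by decide) (by decide)
    have z5 : X (p 1) (b (p 5)) + X (p 4) (b (p 5)) = 0 := by
      rw [← xadd _ _ _ (hbB (p 5) (by decide))]
      exact hz (p 5) (by decide) (by decide)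
    have z6 : X (p 2) (b (p 6)) + X (p 4) (b (p 6)) = 0 := by
      rw [← xadd _ _ _ (hbB (p 6) (by decide))]
      exact hz (p 6) (by decide) (by decide)
    have z7 : X (p 1) (b (p 7)) + X (p 2) (b (p 7)) + X (p 4) (b (p 7)) = 0 := by
      rw [← xadd _ _ _ (hbB (p 7) (by decide)), ← xadd _ _ _ (hbB (p 7) (by decide))]
      exact hz (p 7) (by decide) (by decide)
    have z8 : X (p 8) (b (p 8)) = 0 := by
      exact hz (p 8) (by decide) (by decide)
    have z9 : X (p 1) (b (p 9)) + X (p 8) (b (p 9)) = 0 := by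
      rw [← xadd _ _ _ (hbB (p 9) (by decide))]
      exact hz (p 9) (by decide) (by decide)
    have z10 : X (p 2) (b (p 10)) + X (p 8) (b (p 10)) = 0 := by
      rw [← xadd _ _ _ (hbB (p 10) (by decide))]
      exact hz (p 10) (by decide) (by decide)
    have z11 : X (p 1) (b (p 11)) + X (p 2) (b (p 11)) + X (p 8) (b (p 11)) = 0 := by
      rw [← xadd _ _ _ (hbB (p 11) (by decide)), ← xadd _ _ _ (hbB (p 11) (by decide))]
      exact hz (p 11) (by decide) (by decide)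
    have z12 : X (p 4) (b (p 12)) + X (p 8) (b (p 12)) = 0 := by
      rw [← xadd _ _ _ (hbB (p 12) (by decide))]
      exact hz (p 12) (by decide) (by decide)
    have z13 : X (p 1) (b (p 13)) + X (p 4) (b (p 13)) + X (p 8) (b (p 13)) = 0 := by
      rw [← xadd _ _ _ (hbB (p 13) (by decide)), ← xadd _ _ _ (hbB (p 13) (by decide))]
      exact hz (p 13) (by decide) (by decide)
    have z14 : X (p 2) (b (p 14)) + X (p 4) (b (p 14)) + X (p 8) (b (p 14)) = 0 := by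
      rw [← xadd _ _ _ (hbB (p 14) (by decide)), ← xadd _ _ _ (hbB (p 14) (by decide))]
      exact hz (p 14) (by decide) (by decide)
    have w0 : X (p 1) (b (p 1)) + X (p 1) (b (p 3)) + X (p 1) (b (p 5)) + X (p 1) (b (p 7)) + X (p 1) (b (p 9)) + X (p 1) (b (p 11)) + X (p 1) (b (p 13)) + X (p 1) (b (p 15)) = 0 := by
      rw [← map_add, ← map_add, ← map_add, ← map_add, ← map_add, ← map_add, ← map_add, E0]
      exact hdbl _ _ hs0
    have w1 : X (p 2) (b (p 2)) + X (p 2) (b (p 3)) + X (p 2) (b (p 6)) + X (p 2) (b (p 7)) + X (p 2) (b (p 10)) + X (p 2) (b (p 11)) + X (p 2) (b (p 14)) + X (p 2) (b (p 15)) = 0 := by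
      rw [← map_add, ← map_add, ← map_add, ← map_add, ← map_add, ← map_add, ← map_add, E1]
      exact hdbl _ _ hs1
    have w2 : X (p 4) (b (p 4)) + X (p 4) (b (p 5)) + X (p 4) (b (p 6)) + X (p 4) (b (p 7)) + X (p 4) (b (p 12)) + X (p 4) (b (p 13)) + X (p 4) (b (p 14)) + X (p 4) (b (p 15)) = 0 := by
      rw [← map_add, ← map_add, ← map_add, ← map_add, ← map_add, ← map_add, ← map_add, E2]
      exact hdbl _ _ hs2
    have w3 : X (p 8) (b (p 8)) + X (p 8) (b (p 9)) + X (p 8) (b (p 10)) + X (p 8) (b (p 11)) + X (p 8) (b (p 12)) + X (p 8) (b (p 13)) + X (p 8) (b (p 14)) + X (p 8) (b (p 15)) = 0 := by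
      rw [← map_add, ← map_add, ← map_add, ← map_add, ← map_add, ← map_add, ← map_add, E3]
      exact hdbl _ _ hs3
    have hf : X (p 1) (b (p 15)) + X (p 2) (b (p 15)) + X (p 4) (b (p 15)) + X (p 8) (b (p 15)) = 0 := by
      have key : X (p 1) (b (p 15)) + X (p 2) (b (p 15)) + X (p 4) (b (p 15)) + X (p 8) (b (p 15)) = ((X (p 1) (b (p 1)) + X (p 1) (b (p 3)) + X (p 1) (b (p 5)) + X (p 1) (b (p 7)) + X (p 1) (b (p 9)) + X (p 1) (b (p 11)) + X (p 1) (b (p 13)) + X (p 1) (b (p 15))) + (X (p 2) (b (p 2)) + X (p 2) (b (p 3)) + X (p 2) (b (p 6)) + X (p 2) (b (p 7)) + X (p 2) (b (p 10)) + X (p 2) (b (p 11)) + X (p 2) (b (p 14)) + X (p 2) (b (p 15))) + (X (p 4) (b (p 4)) + X (p 4) (b (p 5)) + X (p 4) (b (p 6)) + X (p 4) (b (p 7)) + X (p 4) (b (p 12)) + X (p 4) (b (p 13)) + X (p 4) (b (p 14)) + X (p 4) (b (p 15))) + (X (p 8) (b (p 8)) + X (p 8) (b (p 9)) + X (p 8) (b (p 10)) + X (p 8) (b (p 11)) + X (p 8) (b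 (p 12)) + X (p 8) (b (p 13)) + X (p 8) (b (p 14)) + X (p 8) (b (p 15)))) - ((X (p 1) (b (p 1))) + (X (p 2) (b (p 2))) + (X (p 1) (b (p 3)) + X (p 2) (b (p 3))) + (X (p 4) (b (p 4))) + (X (p 1) (b (p 5)) + X (p 4) (b (p 5))) + (X (p 2) (b (p 6)) + X (p 4) (b (p 6))) + (X (p 1) (b (p 7)) + X (p 2) (b (p 7)) + X (p 4) (b (p 7))) + (X (p 8) (b (p 8))) + (X (p 1) (b (p 9)) + X (p 8) (b (p 9))) + (X (p 2) (b (p 10)) + X (p 8) (b (p 10))) + (X (p 1) (b (p 11)) + X (p 2) (b (p 11)) + X (p 8) (b (p 11))) + (X (p 4) (b (p 12)) + X (p 8) (b (p 12))) + (X (p 1) (b (p 13)) + X (p 4) (b (p 13)) + X (p 8) (b (p 13))) + (X (p 2) (b (p 14)) + X (p 4) (b (p 14)) + X (p 8) (b (p 14)))) := by abel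
      rw [key, w0, w1, w2, w3, z1, z2, z3, z4, z5, z6, z7, z8, z9, z10, z11, z12, z13, z14]
      simp only [add_zero, sub_zero]
    apply hχ0
    have h1 : X (p 15) (b (p 15)) = 0 := by
      have : X (p 1 + p 2 + p 4 + p 8) (b (p 15)) = 0 := by
        rw [xadd _ _ _ (hbB (p 15) (by decide)), xadd _ _ _ (hbB (p 15) (by decide)),
          xadd _ _ _ (hbB (p 15) (by decide))]
        exact hf
      exact this
    have h2 := mem_ann.1 hXχ (b (p 15)) (hbB (p 15) (by decide))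
    have h3 : (χ - X (p 15)) (b (p 15)) = χ (b (p 15)) - X (p 15) (b (p 15)) := rfl
    rw [h3, h1, sub_zero] at h2
    exact h2
  have h12 : y 12 ∈ g (P 0) := by
    apply ganti _ _ M3
    rw [gsup, ginf, ginf]
    refine AddSubgroup.mem_inf.2 ⟨hyM 12, ?_⟩
    have e : y 12 = b (p 15) - y 8 - y 14 := by
      show y 12 = (y 8 + y 12 + y 14) - y 8 - y 14
      abel
    rw [e]
    exact sub_mem (sub_mem (AddSubgroup.mem_sup_left (AddSubgroup.mem_sup_left hr))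
      (AddSubgroup.mem_sup_left (AddSubgroup.mem_sup_right (hyM 8))))
      (AddSubgroup.mem_sup_right (hyM 14))
  have := add_mem (sub_mem h12 (hyY 12)) hYa
  have e : y 12 - (y 12 - Y (fv 12)) + (a - Y (fv 12)) = a := by abel
  rwa [e] at this

end Pool.Agent.SD
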