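import Pool.Agent.SD.W

set_option autoImplicit false
set_option maxRecDepth 100000

namespace Pool.Agent.SD

/-- the fifteen functionals -/
def fv (k : Fin 15) : W 5 := q ((![16, 8, 24, 4, 2, 6, 20, 10, 30, 17, 5, 9, 13, 3, 19] : Fin 15 → Fin 32) k)

/-- the three lines through a point -/
def t1 (v : W 4) : Fin 15 := (![0, 0, 3, 6, 6, 3, 0, 0, 7, 4, 1, 1, 2, 2, 5, 8] : Fin 16 → Fin 15) v
/-- the three lines through a point -/
def t2 (v : W 4) : Fin 15 := (![0, 1, 4, 7, 9, 11, 13, 3, 11, 9, 10, 4, 5, 9, 10, 12] : Fin 16 → Fin 15) v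
/-- the three lines through a point -/
def t3 (v : W 4) : Fin 15 := (![0, 2, 5, 8, 10, 12, 14, 6, 13, 14, 12, 7, 8, 11, 13, 14] : Fin 16 → Fin 15) v

theorem fv_sum : ∀ v : W 4, v ≠ 0 → fv (t1 v) + fv (t2 v) + fv (t3 v) = 0 := by decide +kernel

theorem hdim5 : ∀ s : W 5, ∃ s' : W 5, s' ≠ 0 ∧ s' ≠ fv 12 ∧ s' ≠ s ∧ s' ≠ s + fv 12 := by
  decide +kernel

theorem hdim4 : ∀ s : W 4, ∃ s' : W 4, s' ≠ 0 ∧ s' ≠ p 15 ∧ s' ≠ s ∧ s' ≠ s + p 15 := by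
  decide +kernel

end Pool.Agent.SD
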