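import Pool.Agent.SD.Rel
import Pool.Agent.SD.Ab

set_option autoImplicit false
set_option maxRecDepth 100000

namespace Pool.Agent.SD

/-- the top element -/
def topN : NL := ⟨⊤, inferInstance⟩
/-- the bottom element -/
def botN : NL := ⟨⊥, inferInstance⟩

theorem le_topN (x : NL) : x ≤ topN := fun _ _ => Subgroup.mem_top _
theorem botN_le (x : NL) : botN ≤ x := by
  intro y hy
  have : y = 1 := Subgroup.mem_bot.1 hy
  rw [this]; exact x.1.one_mem

theorem ab_apply {A : Type} [AddCommGroup A] (g : NL → AddSubgroup A)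
    (gsup : ∀ x y, g (x ⊔ y) = g x ⊓ g y) (ginf : ∀ x y, g (x ⊓ y) = g x ⊔ g y) :
    g (KL (fv 12)) ≤ g (PL 0) :=
  abelian_part g gsup ginf KL PL ML hK0 R1 R2 R3 V1 V2 V3 M1 M2 M3

theorem comm_case {Q : Type} [Group Q] (g : NL → Subgroup Q) (hn : ∀ x, (g x).Normal)
    (gsup : ∀ x y, g (x ⊔ y) = g x ⊓ g y) (ginf : ∀ x y, g (x ⊓ y) = g x ⊔ g y)
    (gtop : g topN = ⊥) : g (KL (fv 12)) ≤ g (PL 0) := by
  classical
  have ganti : ∀ x y, x ≤ y → g y ≤ g x := by
    intro x y h
    have := gsup x y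
    rw [sup_eq_right.2 h] at this
    rw [this]; exact inf_le_left
  -- joins of families
  have hfam : ∀ (s : Finset (Fin 15)) (X : Subgroup Q), (∀ l ∈ s, g (ML l) ≤ X) →
      ∃ y : NL, (∀ x, x ∈ y.1 ↔ ∀ l ∈ s, x ∈ (ML l).1) ∧ g y ≤ X := by
    intro s X
    induction s using Finset.induction_on with
    | empty =>
      intro _
      refine ⟨topN, ?_, ?_⟩
      · intro x; simp [topN]
      · rw [gtop]; exact bot_le
    | insert a s has ih =>
      intro h
      obtain ⟨y, hy1, hy2⟩ := ih fun l hl => h l (Finset.mem_insert_of_mem hl)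
      refine ⟨ML a ⊓ y, ?_, ?_⟩
      · intro x
        rw [mem_inf', hy1]
        simp [Finset.forall_mem_insert]
      · rw [ginf]
        exact sup_le (h a (Finset.mem_insert_self _ _)) hy2
  have hbot : ∀ (k : Fin 15) (X : Subgroup Q), (∀ l, dj k l → g (ML l) ≤ X) → g botN ≤ X := by
    intro k X h
    obtain ⟨y, hy1, hy2⟩ := hfam (Finset.univ.filter (dj k)) X (by
      intro l hl
      exact h l (Finset.mem_filter.1 hl).2)
    refine le_trans (ganti _ _ ?_) hy2
    intro x hx
    rw [hy1] at hx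
    have : x = 1 := M5 k x fun l hl => hx l (Finset.mem_filter.2 ⟨Finset.mem_univ _, hl⟩)
    rw [this]; exact botN.1.one_mem
  have hcent : ∀ k l, dj k l → g (ML l) ≤ Subgroup.centralizer (g (ML k) : Set Q) := by
    intro k l hkl b hb
    rw [Subgroup.mem_centralizer_iff]
    intro a ha
    have hdis : Disjoint (g (ML k)) (g (ML l)) := by
      rw [disjoint_iff, ← gsup]
      have : topN ≤ ML k ⊔ ML l := fun x hx => M4 k l hkl topN x hx
      exact le_bot_iff.1 (le_trans (ganti _ _ this) (le_of_eq gtop))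
    exact Subgroup.commute_of_normal_of_disjoint _ _ (hn _) (hn _) hdis a b ha hb
  have h1 : ∀ k, g botN ≤ Subgroup.centralizer (g (ML k) : Set Q) := fun k => hbot k _ (hcent k)
  have h2 : ∀ k, g (ML k) ≤ Subgroup.centralizer (g botN : Set Q) := by
    intro k a ha
    rw [Subgroup.mem_centralizer_iff]
    intro b hb
    exact ((Subgroup.mem_centralizer_iff.1 (h1 k hb)) a ha).symm
  have h3 : g botN ≤ Subgroup.centralizer (g botN : Set Q) := hbot 0 _ fun l _ => h2 l
  letI : CommGroup (g botN) :=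
    { (inferInstance : Group (g botN)) with
      mul_comm := by
        intro a b
        apply Subtype.ext
        exact (Subgroup.mem_centralizer_iff.1 (h3 b.2)) a.1 a.2 }
  have hle : ∀ x, g x ≤ g botN := fun x => ganti _ _ (botN_le x)
  have key := ab_apply (A := Additive (g botN))
    (fun x => Subgroup.toAddSubgroup ((g x).subgroupOf (g botN)))
    (by
      intro x y
      show Subgroup.toAddSubgroup ((g (x ⊔ y)).subgroupOf (g botN)) =
        Subgroup.toAddSubgroup ((g x).subgroupOf (g botN)) ⊓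
          Subgroup.toAddSubgroup ((g y).subgroupOf (g botN))
      rw [← map_inf, gsup]
      rfl)
    (by
      intro x y
      show Subgroup.toAddSubgroup ((g (x ⊓ y)).subgroupOf (g botN)) =
        Subgroup.toAddSubgroup ((g x).subgroupOf (g botN)) ⊔
          Subgroup.toAddSubgroup ((g y).subgroupOf (g botN))
      rw [← map_sup, ginf, Subgroup.subgroupOf_sup (hle x) (hle y)])
  intro a ha
  have h4 : (⟨a, hle _ ha⟩ : g botN) ∈ (g (KL (fv 12))).subgroupOf (g botN) := by
    rw [Subgroup.mem_subgroupOf]; exact ha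
  have h5 : (⟨a, hle _ ha⟩ : g botN) ∈ (g (PL 0)).subgroupOf (g botN) := key h4
  rw [Subgroup.mem_subgroupOf] at h5
  exact h5

theorem no_embedding {H : Type} [Group H] (g : NL → Subgroup H) (hn : ∀ x, (g x).Normal)
    (hinj : Function.Injective g)
    (gsup : ∀ x y, g (x ⊔ y) = g x ⊓ g y) (ginf : ∀ x y, g (x ⊓ y) = g x ⊔ g y) : False := by
  classical
  have ganti : ∀ x y, x ≤ y → g y ≤ g x := by
    intro x y h
    have := gsup x y
    rw [sup_eq_right.2 h] at this
    rw [this]; exact inf_le_left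
  haveI := hn topN
  have hN : ∀ x, g topN ≤ g x := fun x => ganti _ _ (le_topN x)
  let π := QuotientGroup.mk' (g topN)
  have hπ : ∀ x a b, b ∈ g x → π a = π b → a ∈ g x := by
    intro x a b hb hab
    have h1 : b⁻¹ * a ∈ g topN := by
      have := (QuotientGroup.eq (s := g topN)).1 hab.symm
      exact this
    have := (g x).mul_mem hb (hN x h1)
    rwa [mul_inv_cancel_left] at this
  have key := comm_case (fun x => (g x).map π)
    (fun x => Subgroup.Normal.map (hn x) π (QuotientGroup.mk'_surjective _))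
    (by
      intro x y
      apply le_antisymm
      · show (g (x ⊔ y)).map π ≤ _
        rw [gsup]; exact Subgroup.map_inf_le _ _ _
      · intro c hc
        rw [Subgroup.mem_inf] at hc
        obtain ⟨⟨a, ha, rfl⟩, b, hb, hab⟩ := hc
        refine ⟨a, ?_, rfl⟩
        show a ∈ g (x ⊔ y)
        rw [gsup, Subgroup.mem_inf]
        exact ⟨ha, hπ y a b hb hab.symm⟩)
    (by
      intro x y
      show (g (x ⊓ y)).map π = _
      rw [ginf, Subgroup.map_sup])
    (by
      rw [eq_bot_iff]
      rintro c ⟨a, ha, rfl⟩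
      rw [Subgroup.mem_bot]
      exact (QuotientGroup.eq_one_iff a).2 ha)
  have h1 : g (KL (fv 12)) ≤ g (PL 0) := by
    intro a ha
    obtain ⟨b, hb, hab⟩ := key (Subgroup.mem_map_of_mem π ha)
    exact hπ _ a b hb hab.symm
  have h2 : g (KL (fv 12) ⊔ PL 0) = g (KL (fv 12)) := by
    rw [gsup]; exact inf_eq_left.2 h1
  have h3 := hinj h2
  have h4 : PL 0 ≤ KL (fv 12) := by
    rw [← h3]; exact le_sup_right
  have h5 : (⟨0, q 1⟩ : G0) ∈ (KL (fv 12)).1 := h4 (mem_PL0.2 rfl)
  rw [mem_KL] at h5
  revert h5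
  decide

end Pool.Agent.SD
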