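import Pool.Agent.SD.W

set_option autoImplicit false
set_option maxRecDepth 100000

namespace Pool.Agent.SD

/-- table of the cocycle -/
def ktab : ℕ := 0x215296b5ad4a0840039ce77bdef4210800000c6339d6b7b18c4208400ffffffffff0000000000fffdead6945ad4a08400c631884210421080000039cc62948418c420840000000000000000000000000215296b5ad4a0840039ce77bdef4210800000c6339d6b7b18c4208400ffffffffff0000000000fffdead6945ad4a08400c631884210421080000039cc62948418c420840000000000000000000000

/-- the bilinear cocycle `F₂⁴ × F₂⁴ → F₂⁵` -/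
def kap (v w : W 4) : W 5 :=
  ⟨(ktab >>> (5 * (16 * v.1 + w.1))) % 32, Nat.mod_lt _ (by norm_num)⟩

theorem kap_add_left : ∀ u v w : W 4, kap (u + v) w = kap u w + kap v w := by decide +kernel
theorem kap_add_right : ∀ u v w : W 4, kap u (v + w) = kap u v + kap u w := by decide +kernel

theorem kap_zero_left (v : W 4) : kap 0 v = 0 := by
  have := kap_add_left 0 0 v
  rw [add_zero] at this
  exact (left_eq_add.1 this)

theorem kap_zero_right (v : W 4) : kap v 0 = 0 := by
  have := kap_add_right v 0 0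
  rw [add_zero] at this
  exact (left_eq_add.1 this)

/-- the group of order 512 -/
@[ext] structure G0 where
  v : W 4
  z : W 5

instance : Mul G0 := ⟨fun a b => ⟨a.v + b.v, a.z + b.z + kap a.v b.v⟩⟩
instance : One G0 := ⟨⟨0, 0⟩⟩
instance : Inv G0 := ⟨fun a => ⟨a.v, a.z + kap a.v a.v⟩⟩

theorem G0.mul_v (a b : G0) : (a * b).v = a.v + b.v := rfl
theorem G0.mul_z (a b : G0) : (a * b).z = a.z + b.z + kap a.v b.v := rfl
theorem G0.one_v : (1 : G0).v = 0 := rfl
theorem G0.one_z : (1 : G0).z = 0 := rfl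
theorem G0.inv_v (a : G0) : (a⁻¹).v = a.v := rfl
theorem G0.inv_z (a : G0) : (a⁻¹).z = a.z + kap a.v a.v := rfl

instance : Group G0 where
  mul_assoc a b c := by
    ext1
    · simp only [G0.mul_v]; abel
    · simp only [G0.mul_v, G0.mul_z, kap_add_left, kap_add_right]; abel
  one_mul a := by
    ext1
    · simp only [G0.mul_v, G0.one_v, zero_add]
    · simp only [G0.mul_z, G0.one_v, G0.one_z, kap_zero_left, zero_add, add_zero]
  mul_one a := by
    ext1
    · simp only [G0.mul_v, G0.one_v, add_zero]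
    · simp only [G0.mul_z, G0.one_v, G0.one_z, kap_zero_right, add_zero]
  inv_mul_cancel a := by
    ext1
    · simp only [G0.mul_v, G0.one_v, G0.inv_v, W.add_self]
    · simp only [G0.mul_z, G0.one_z, G0.inv_v, G0.inv_z]
      have : a.z + kap a.v a.v + a.z + kap a.v a.v =
        (a.z + a.z) + (kap a.v a.v + kap a.v a.v) := by abel
      rw [this, W.add_self, W.add_self, add_zero]

/-- the condition that `{(v,z) : v ∈ s, f z = l v}` is a normal subgroup. -/
def Okk (s l : ℕ) (f : W 5) : Prop :=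
  (s.testBit 0 = true ∧ l.testBit 0 = false) ∧
  (∀ v w : W 4, s.testBit v.1 = true → s.testBit w.1 = true →
    s.testBit (v + w).1 = true ∧
    l.testBit (v + w).1 = ((l.testBit v.1) ^^ (l.testBit w.1) ^^ (dot f (kap v w)))) ∧
  (∀ v w : W 4, s.testBit v.1 = true → dot f (kap v w) = dot f (kap w v))

instance (s l : ℕ) (f : W 5) : Decidable (Okk s l f) := by unfold Okk; infer_instance

/-- the normal subgroups `{(v,z) : v ∈ s, f z = l v}` -/
def Nsub (s l : ℕ) (f : W 5) (h : Okk s l f) : Subgroup G0 where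
  carrier := {x | s.testBit x.v.1 = true ∧ dot f x.z = l.testBit x.v.1}
  one_mem' := by
    refine ⟨h.1.1, ?_⟩
    rw [G0.one_z, dot_zero, G0.one_v]
    exact h.1.2.symm
  mul_mem' := by
    intro a b ha hb
    obtain ⟨h1, h2⟩ := h.2.1 a.v b.v ha.1 hb.1
    refine ⟨h1, ?_⟩
    rw [G0.mul_z, G0.mul_v, h2, dot_add, dot_add, ha.2, hb.2]
  inv_mem' := by
    intro a ha
    obtain ⟨h1, h2⟩ := h.2.1 a.v a.v ha.1 ha.1
    refine ⟨ha.1, ?_⟩
    rw [W.add_self] at h2
    rw [G0.inv_z, G0.inv_v, dot_add, ha.2]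
    have h3 : l.testBit (0 : W 4).1 = false := h.1.2
    rw [h3] at h2
    generalize l.testBit a.v.1 = t at h2 ⊢
    generalize dot f (kap a.v a.v) = t' at h2 ⊢
    revert h2; cases t <;> cases t' <;> decide

theorem mem_Nsub {s l : ℕ} {f : W 5} {h : Okk s l f} {x : G0} :
    x ∈ Nsub s l f h ↔ s.testBit x.v.1 = true ∧ dot f x.z = l.testBit x.v.1 := Iff.rfl

theorem Nsub_normal (s l : ℕ) (f : W 5) (h : Okk s l f) : (Nsub s l f h).Normal := by
  constructor
  intro n hn g
  have e : (g * n * g⁻¹).v = n.v := by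
    rw [G0.mul_v, G0.mul_v, G0.inv_v]
    have : g.v + n.v + g.v = n.v + (g.v + g.v) := by abel
    rw [this, W.add_self, add_zero]
  have ez : (g * n * g⁻¹).z = n.z + (kap g.v n.v + kap n.v g.v) := by
    rw [G0.mul_z, G0.mul_z, G0.inv_z, G0.mul_v, G0.inv_v, kap_add_left]
    have : g.z + n.z + kap g.v n.v + (g.z + kap g.v g.v) + (kap g.v g.v + kap n.v g.v) =
      n.z + (kap g.v n.v + kap n.v g.v) + (g.z + g.z) + (kap g.v g.v + kap g.v g.v) := by abel
    rw [this, W.add_self, W.add_self, add_zero, add_zero]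
  rw [mem_Nsub, e, ez]
  refine ⟨hn.1, ?_⟩
  rw [dot_add, dot_add, ← hn.2, h.2.2 n.v g.v hn.1]
  generalize dot f (kap g.v n.v) = t
  cases t <;> simp

/-- the lattice of normal subgroups of `G0` -/
def NL : Type := {N : Subgroup G0 // N.Normal}

noncomputable instance : Lattice NL :=
  Subtype.lattice (P := fun N : Subgroup G0 => N.Normal)
    (fun {x y} hx hy => by
      haveI := hx; haveI := hy; exact Subgroup.sup_normal x y)
    (fun {x y} hx hy => by
      haveI := hx; haveI := hy; exact Subgroup.normal_inf_normal x y)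

theorem NL.le_def {a b : NL} : a ≤ b ↔ a.1 ≤ b.1 := Iff.rfl
theorem NL.sup_val (a b : NL) : (a ⊔ b).1 = a.1 ⊔ b.1 := rfl
theorem NL.inf_val (a b : NL) : (a ⊓ b).1 = a.1 ⊓ b.1 := rfl

end Pool.Agent.SD
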