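import Pool.Agent.SD.Grp
import Pool.Agent.SD.Dat

set_option autoImplicit false
set_option maxRecDepth 100000

namespace Pool.Agent.SD

theorem okK : ∀ t : W 5, Okk 1 0 t := by decide +kernel
theorem okP : ∀ v : W 4, Okk (1 ||| (1 <<< v.1)) 0 0 := by decide +kernel

/-- masks of the fifteen lines -/
def ml (k : Fin 15) : ℕ :=
  (![195, 3075, 12291, 165, 2565, 20485, 153, 2313, 36873, 8721, 17425, 8481, 33825, 16705, 33345] :
    Fin 15 → ℕ) k
/-- the twist -/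
def ll (k : Fin 15) : ℕ := (![0, 0, 0, 0, 0, 0, 0, 0, 0, 0, 0, 0, 32768, 0, 0] : Fin 15 → ℕ) k

theorem okM : ∀ k : Fin 15, Okk (ml k) (ll k) (fv k) := by decide +kernel

/-- the subgroups of the centre that are kernels of functionals -/
def KL (t : W 5) : NL := ⟨Nsub 1 0 t (okK t), Nsub_normal _ _ _ _⟩
/-- preimages of the points -/
def PL (v : W 4) : NL := ⟨Nsub (1 ||| (1 <<< v.1)) 0 0 (okP v), Nsub_normal _ _ _ _⟩
/-- the fifteen twisted normal subgroups -/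
def ML (k : Fin 15) : NL := ⟨Nsub (ml k) (ll k) (fv k) (okM k), Nsub_normal _ _ _ _⟩

theorem bit1 : ∀ v : W 4, Nat.testBit 1 v.1 = true ↔ v = 0 := by decide +kernel
theorem bitP : ∀ u v : W 4, Nat.testBit (1 ||| (1 <<< u.1)) v.1 = true ↔ (v = 0 ∨ v = u) := by
  decide +kernel

theorem mem_KL {t : W 5} {x : G0} : x ∈ (KL t).1 ↔ x.v = 0 ∧ dot t x.z = false := by
  show x ∈ Nsub 1 0 t (okK t) ↔ _
  rw [mem_Nsub, bit1, Nat.zero_testBit]

theorem mem_PL {v : W 4} {x : G0} : x ∈ (PL v).1 ↔ (x.v = 0 ∨ x.v = v) := by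
  show x ∈ Nsub _ 0 0 (okP v) ↔ _
  rw [mem_Nsub, bitP, Nat.zero_testBit, zero_dot]
  simp

theorem mem_PL0 {x : G0} : x ∈ (PL 0).1 ↔ x.v = 0 := by
  rw [mem_PL, or_self]

theorem mem_ML {k : Fin 15} {x : G0} :
    x ∈ (ML k).1 ↔ (ml k).testBit x.v.1 = true ∧ dot (fv k) x.z = (ll k).testBit x.v.1 := Iff.rfl

theorem mem_sup_of {X Y : NL} {a b x : G0} (ha : a ∈ X.1) (hb : b ∈ Y.1) (hx : x = a * b) :
    x ∈ (X ⊔ Y).1 := by
  rw [NL.sup_val, hx]; exact Subgroup.mul_mem_sup ha hb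

theorem mem_sup_left' {X Y : NL} {x : G0} (h : x ∈ X.1) : x ∈ (X ⊔ Y).1 := by
  rw [NL.sup_val]; exact Subgroup.mem_sup_left h

theorem mem_sup_right' {X Y : NL} {x : G0} (h : x ∈ Y.1) : x ∈ (X ⊔ Y).1 := by
  rw [NL.sup_val]; exact Subgroup.mem_sup_right h

theorem mem_inf' {X Y : NL} {x : G0} : x ∈ (X ⊓ Y).1 ↔ x ∈ X.1 ∧ x ∈ Y.1 := by
  rw [NL.inf_val, Subgroup.mem_inf]

theorem hK0 : KL 0 = PL 0 := by
  apply Subtype.ext
  ext x
  rw [mem_KL, mem_PL0, zero_dot]; simp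

theorem R1 (s t : W 5) : KL s ⊓ KL t ≤ KL (s + t) := by
  intro x hx
  rw [mem_inf', mem_KL, mem_KL] at hx
  rw [mem_KL, add_dot, hx.1.2, hx.2.2]
  exact ⟨hx.1.1, rfl⟩

theorem W.add_add_self {n : ℕ} (a b : W n) : a + (b + a) = b := by
  have : a + (b + a) = b + (a + a) := by abel
  rw [this, W.add_self, add_zero]

theorem mulc (x : G0) (hx : x.v = 0) (e : W 5) : x = (⟨0, e⟩ : G0) * ⟨0, x.z + e⟩ := by
  ext1
  · rw [G0.mul_v, hx, add_zero]
  · rw [G0.mul_z, kap_zero_left, add_zero, W.add_add_self]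

theorem R2 (s t : W 5) (hst : s ≠ t) : PL 0 ≤ KL s ⊔ KL t := by
  intro x hx
  rw [mem_PL0] at hx
  by_cases h1 : dot t x.z = false
  · exact mem_sup_right' (mem_KL.2 ⟨hx, h1⟩)
  by_cases h2 : dot s x.z = false
  · exact mem_sup_left' (mem_KL.2 ⟨hx, h2⟩)
  have ht : t ≠ 0 := by
    intro h; apply h1; rw [h, zero_dot]
  obtain ⟨e, he1, -, he2⟩ := fact3 s 0 t ht hst.symm ht (by rw [add_zero]; exact hst.symm)
  refine mem_sup_of (mem_KL.2 ⟨rfl, he1⟩) (mem_KL.2 ⟨rfl, ?_⟩) (mulc x hx e)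
  show dot t (x.z + e) = false
  rw [dot_add, he2]
  simp only [Bool.not_eq_false] at h1
  rw [h1]; rfl

theorem R3 (x y z w : W 5) (h : x + y = z + w) (h0 : z ≠ 0) (h1 : z ≠ x) (h2 : z ≠ y)
    (h3 : z ≠ x + y) : KL (x + y) ≤ (KL x ⊓ KL y) ⊔ (KL z ⊓ KL w) := by
  intro u hu
  rw [mem_KL] at hu
  have hw : w = z + (x + y) := by
    rw [h, ← add_assoc, W.add_self, zero_add]
  by_cases h4 : dot z u.z = false
  · apply mem_sup_right'
    rw [mem_inf', mem_KL, mem_KL, hw, add_dot, h4, hu.2]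
    exact ⟨⟨hu.1, rfl⟩, hu.1, rfl⟩
  obtain ⟨e, he1, he2, he3⟩ := fact3 x y z h0 h1 h2 h3
  simp only [Bool.not_eq_false] at h4
  refine mem_sup_of (mem_inf'.2 ⟨mem_KL.2 ⟨rfl, he1⟩, mem_KL.2 ⟨rfl, he2⟩⟩)
    (mem_inf'.2 ⟨mem_KL.2 ⟨rfl, ?_⟩, mem_KL.2 ⟨rfl, ?_⟩⟩) (mulc u hu.1 e)
  · show dot z (u.z + e) = false
    rw [dot_add, h4, he3]; rfl
  · show dot w (u.z + e) = false
    have hxe : dot (x + y) e = false := by rw [add_dot, he1, he2]; rfl
    rw [hw, add_dot, dot_add, dot_add, h4, he3, hu.2, hxe]; rfl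

theorem mulv (x : G0) (s t : W 4) (h : x.v = s + t) :
    x = (⟨s, x.z + kap s t⟩ : G0) * ⟨t, 0⟩ := by
  ext1
  · rw [G0.mul_v, h]
  · rw [G0.mul_z, add_zero, add_assoc, W.add_self, add_zero]

theorem V1 (s t : W 4) : PL (s + t) ≤ PL s ⊔ PL t := by
  intro x hx
  rw [mem_PL] at hx
  rcases hx with hx | hx
  · exact mem_sup_left' (mem_PL.2 (Or.inl hx))
  · exact mem_sup_of (mem_PL.2 (Or.inr rfl)) (mem_PL.2 (Or.inr rfl)) (mulv x s t hx)

theorem V2 (s t : W 4) (hst : s ≠ t) : PL s ⊓ PL t ≤ PL 0 := by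
  intro x hx
  rw [mem_inf', mem_PL, mem_PL] at hx
  rw [mem_PL0]
  rcases hx.1 with h | h
  · exact h
  rcases hx.2 with h' | h'
  · exact h'
  · exact absurd (h.symm.trans h') hst

theorem mem_sup_PL {x y : W 4} {u : G0} (hu : u ∈ (PL x ⊔ PL y).1) :
    u.v = 0 ∨ u.v = x ∨ u.v = y ∨ u.v = x + y := by
  rw [NL.sup_val] at hu
  have := (PL x).2
  rw [Subgroup.mem_sup_of_normal_left] at hu
  obtain ⟨a, ha, b, hb, rfl⟩ := hu
  rw [mem_PL] at ha hb
  rw [G0.mul_v]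
  rcases ha with ha | ha <;> rcases hb with hb | hb <;> rw [ha, hb]
  · left; exact add_zero _
  · right; right; left; exact zero_add _
  · right; left; exact add_zero _
  · right; right; right; rfl

theorem V3 (x y z w : W 4) (h : x + y = z + w) (_ : z ≠ 0) (h1 : z ≠ x) (h2 : z ≠ y)
    (_ : z ≠ x + y) : (PL x ⊔ PL y) ⊓ (PL z ⊔ PL w) ≤ PL (x + y) := by
  intro u hu
  rw [mem_inf'] at hu
  have ha := mem_sup_PL hu.1
  have hb := mem_sup_PL hu.2
  rw [mem_PL]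
  rw [← h] at hb
  have hw : w = z + (x + y) := by
    rw [h, ← add_assoc, W.add_self, zero_add]
  rw [hw] at hb
  generalize u.v = t at ha hb
  have c1 : x ≠ z + (x + y) := by
    intro e; apply h2
    have e2 : x + (z + (x + y)) = z + y + (x + x) := by abel
    have e3 : x + x = z + y := by
      calc x + x = x + (z + (x + y)) := by rw [← e]
        _ = z + y + (x + x) := e2
        _ = z + y := by rw [W.add_self, add_zero]
    rw [W.add_self] at e3
    calc z = z + (y + y) := by rw [W.add_self, add_zero]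
      _ = z + y + y := by abel
      _ = y := by rw [← e3, zero_add]
  have c2 : y ≠ z + (x + y) := by
    intro e; apply h1
    have e2 : y + (z + (x + y)) = z + x + (y + y) := by abel
    have e3 : y + y = z + x := by
      calc y + y = y + (z + (x + y)) := by rw [← e]
        _ = z + x + (y + y) := e2
        _ = z + x := by rw [W.add_self, add_zero]
    rw [W.add_self] at e3
    calc z = z + (x + x) := by rw [W.add_self, add_zero]
      _ = z + x + x := by abel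
      _ = x := by rw [← e3, zero_add]
  rcases ha with ha | ha | ha | ha
  · left; exact ha
  · rcases hb with hb | hb | hb | hb
    · left; exact hb
    · exact absurd (hb.symm.trans ha) h1
    · exact absurd (ha.symm.trans hb) c1
    · right; exact hb
  · rcases hb with hb | hb | hb | hb
    · left; exact hb
    · exact absurd (hb.symm.trans ha) h2
    · exact absurd (ha.symm.trans hb) c2
    · right; exact hb
  · right; exact ha

theorem M1 (k : Fin 15) : ML k ⊓ PL 0 ≤ KL (fv k) := by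
  intro x hx
  rw [mem_inf', mem_PL0, mem_ML] at hx
  rw [mem_KL]
  refine ⟨hx.2, ?_⟩
  rw [hx.1.2, hx.2]
  exact (okM k).1.2

theorem m2d : ∀ v : W 4, v ≠ 0 → v ≠ p 15 →
    ((ml (t1 v)).testBit v.1 = true ∧ (ll (t1 v)).testBit v.1 = false) ∧
    ((ml (t2 v)).testBit v.1 = true ∧ (ll (t2 v)).testBit v.1 = false) ∧
    ((ml (t3 v)).testBit v.1 = true ∧ (ll (t3 v)).testBit v.1 = false) := by decide +kernel

theorem M2 (v : W 4) (hv : v ≠ 0) (hv' : v ≠ p 15) :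
    PL v ≤ PL 0 ⊔ (ML (t1 v) ⊓ ML (t2 v) ⊓ ML (t3 v)) := by
  intro x hx
  rw [mem_PL] at hx
  rcases hx with hx | hx
  · exact mem_sup_left' (mem_PL0.2 hx)
  obtain ⟨h1, h2, h3⟩ := m2d v hv hv'
  refine mem_sup_of (mem_PL0.2 rfl) ?_ (mulv x 0 v (by rw [hx, zero_add]))
  rw [mem_inf', mem_inf', mem_ML, mem_ML, mem_ML]
  refine ⟨⟨⟨h1.1, ?_⟩, h2.1, ?_⟩, h3.1, ?_⟩
  · show dot _ 0 = _
    rw [dot_zero]; exact h1.2.symm
  · show dot _ 0 = _
    rw [dot_zero]; exact h2.2.symm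
  · show dot _ 0 = _
    rw [dot_zero]; exact h3.2.symm

theorem M3 : PL 0 ≤ ML 12 ⊔ (PL (p 15) ⊓ ML 8 ⊓ ML 14) := by
  intro x hx
  rw [mem_PL0] at hx
  by_cases h : dot (fv 12) x.z = false
  · apply mem_sup_left'
    rw [mem_ML, hx, h]
    decide
  simp only [Bool.not_eq_false] at h
  refine mem_sup_of ?_ ?_ (mulv x (p 15) (p 15) (by rw [hx, W.add_self]))
  · rw [mem_ML]
    show (ml 12).testBit (p 15).1 = true ∧
      dot (fv 12) (x.z + kap (p 15) (p 15)) = (ll 12).testBit (p 15).1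
    rw [dot_add, h]
    decide +kernel
  · rw [mem_inf', mem_inf', mem_ML, mem_ML, mem_PL]
    decide

/-- disjoint lines -/
def dj (k l : Fin 15) : Prop := ml k &&& ml l = 1

instance (k l : Fin 15) : Decidable (dj k l) := by unfold dj; infer_instance

theorem d1 : ∀ k l : Fin 15, dj k l → ∀ v : W 4, ∃ s : W 4,
    (ml k).testBit s.1 = true ∧ (ml l).testBit (v + s).1 = true := by decide +kernel

theorem d2 : ∀ k l : Fin 15, dj k l → fv k ≠ 0 ∧ fv l ≠ 0 ∧ fv k ≠ fv l := by decide +kernel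

theorem d3 : ∀ k : Fin 15, ∀ v : W 4, (∀ l, dj k l → (ml l).testBit v.1 = true) → v = 0 := by
  decide +kernel

theorem d4 : ∀ k : Fin 15, ∀ z : W 5, (∀ l, dj k l → dot (fv l) z = false) → z = 0 := by
  decide +kernel

theorem two (f g : W 5) (hf : f ≠ 0) (hg : g ≠ 0) (hfg : f ≠ g) (c d : Bool) :
    ∃ a, dot f a = c ∧ dot g a = d := by
  obtain ⟨e1, h1, -, h2⟩ := fact3 g 0 f hf hfg hf (by rw [add_zero]; exact hfg)
  obtain ⟨e2, h3, -, h4⟩ := fact3 f 0 g hg hfg.symm hg (by rw [add_zero]; exact hfg.symm)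
  cases c <;> cases d
  · exact ⟨0, dot_zero _, dot_zero _⟩
  · exact ⟨e2, h3, h4⟩
  · exact ⟨e1, h2, h1⟩
  · exact ⟨e1 + e2, by rw [dot_add, h2, h3]; rfl, by rw [dot_add, h1, h4]; rfl⟩

theorem M4 (k l : Fin 15) (h : dj k l) (X : NL) (x : G0) (_ : x ∈ X.1) :
    x ∈ (ML k ⊔ ML l).1 := by
  obtain ⟨s, hs1, hs2⟩ := d1 k l h x.v
  obtain ⟨h1, h2, h3⟩ := d2 k l h
  obtain ⟨a, ha1, ha2⟩ := two _ _ h1 h2 h3 ((ll k).testBit s.1)
    (((ll l).testBit (x.v + s).1) ^^ (dot (fv l) (x.z + kap s (x.v + s))))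
  refine mem_sup_of (a := ⟨s, a⟩) (b := ⟨x.v + s, a + (x.z + kap s (x.v + s))⟩) ?_ ?_ ?_
  · exact mem_ML.2 ⟨hs1, ha1⟩
  · refine mem_ML.2 ⟨hs2, ?_⟩
    show dot (fv l) (a + (x.z + kap s (x.v + s))) = _
    rw [dot_add, ha2, Bool.xor_assoc, Bool.xor_self, Bool.xor_false]
  · ext1
    · rw [G0.mul_v, W.add_add_self]
    · rw [G0.mul_z]
      show x.z = a + (a + (x.z + kap s (x.v + s))) + kap s (x.v + s)
      have : a + (a + (x.z + kap s (x.v + s))) + kap s (x.v + s) =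
        x.z + (a + a) + (kap s (x.v + s) + kap s (x.v + s)) := by abel
      rw [this, W.add_self, W.add_self, add_zero, add_zero]

theorem M5 (k : Fin 15) (x : G0) (hx : ∀ l, dj k l → x ∈ (ML l).1) : x = 1 := by
  have hv : x.v = 0 := d3 k x.v fun l hl => (hx l hl).1
  have hz : x.z = 0 := by
    apply d4 k
    intro l hl
    rw [(hx l hl).2, hv]
    exact (okM l).1.2
  ext1
  · rw [hv]; rfl
  · rw [hz]; rfl

end Pool.Agent.SD
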