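import Mathlib

set_option autoImplicit false

namespace Pool.Agent.SD

/-- bit vectors of length `n` with exclusive or as addition -/
def W (n : ℕ) : Type := Fin (2 ^ n)

instance (n : ℕ) : DecidableEq (W n) := inferInstanceAs (DecidableEq (Fin (2 ^ n)))
instance (n : ℕ) : Fintype (W n) := inferInstanceAs (Fintype (Fin (2 ^ n)))

instance (n : ℕ) : Zero (W n) := ⟨⟨0, Nat.two_pow_pos n⟩⟩
instance (n : ℕ) : Add (W n) := ⟨fun a b => ⟨a.1 ^^^ b.1, Nat.xor_lt_two_pow a.2 b.2⟩⟩
instance (n : ℕ) : Neg (W n) := ⟨fun a => a⟩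

theorem W.add_val {n : ℕ} (a b : W n) : (a + b).1 = a.1 ^^^ b.1 := rfl
theorem W.zero_val {n : ℕ} : (0 : W n).1 = 0 := rfl

theorem W.add_self {n : ℕ} (a : W n) : a + a = 0 := Fin.ext (Nat.xor_self _)

instance (n : ℕ) : AddCommGroup (W n) where
  add_assoc a b c := Fin.ext (Nat.xor_assoc _ _ _)
  zero_add a := Fin.ext (Nat.zero_xor _)
  add_zero a := Fin.ext (Nat.xor_zero _)
  add_comm a b := Fin.ext (Nat.xor_comm _ _)
  neg_add_cancel a := W.add_self a
  nsmul := nsmulRec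
  zsmul := zsmulRec

/-- points of `F₂⁴` -/
def p (k : Fin 16) : W 4 := k
/-- points of `F₂⁵` -/
def q (k : Fin 32) : W 5 := k

/-- parity table -/
def par (n : ℕ) : Bool := Nat.testBit 0x96696996 n

/-- scalar product -/
def dot (a b : W 5) : Bool := par (a.1 &&& b.1)

theorem par_xor (a b : W 5) : par (a.1 ^^^ b.1) = ((par a.1) ^^ (par b.1)) := by
  revert a b; decide +kernel

theorem dot_add (t a b : W 5) : dot t (a + b) = ((dot t a) ^^ (dot t b)) := by
  have h1 : t.1 &&& a.1 < 2 ^ 5 := lt_of_le_of_lt Nat.and_le_left t.2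
  have h2 : t.1 &&& b.1 < 2 ^ 5 := lt_of_le_of_lt Nat.and_le_left t.2
  have := par_xor ⟨t.1 &&& a.1, h1⟩ ⟨t.1 &&& b.1, h2⟩
  unfold dot
  rw [W.add_val, Nat.and_xor_distrib_left]
  exact this

theorem dot_comm (a b : W 5) : dot a b = dot b a := by
  unfold dot; rw [Nat.and_comm]

theorem add_dot (a b t : W 5) : dot (a + b) t = ((dot a t) ^^ (dot b t)) := by
  rw [dot_comm, dot_add, dot_comm t a, dot_comm t b]

theorem dot_zero (t : W 5) : dot t 0 = false := by
  revert t; decide +kernel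

theorem zero_dot (t : W 5) : dot 0 t = false := by
  rw [dot_comm]; exact dot_zero t

theorem fact3 : ∀ x y z : W 5, z ≠ 0 → z ≠ x → z ≠ y → z ≠ x + y →
    ∃ e : W 5, dot x e = false ∧ dot y e = false ∧ dot z e = true := by
  decide +kernel

end Pool.Agent.SD
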